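import Pool.Agent.Helper19.LB.Num2

/-!
# The jumps at the four radii, second version
-/

set_option autoImplicit false

open MeasureTheory Set Real

namespace Pool.Agent.Helper19.LB2

open Pool.Agent.Helper19.LB

variable {k : ℕ} {m : ℝ}

theorem jb_rb (hm : 20 ≤ m) : 1 ≤ rb m ∧ rb m ≤ 1.0025 := by
  have h1 : (400 : ℝ) ≤ m ^ 2 := by nlinarith
  have h2 : 0 ≤ 1 / m ^ 2 := by positivity
  have h3 : 1 / m ^ 2 ≤ 0.0025 := by
    rw [div_le_iff₀ (by positivity)]
    linarith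
  unfold rb
  constructor <;> linarith

theorem jb_vv1 (hm : 20 ≤ m) : vv k m (rb m) = 1 := by
  have h := (jb_rb hm).1
  rw [vv, div_self (by linarith), one_pow]

theorem jb_vv2 (hm : 20 ≤ m) : vv k m (2 * rb m) = eta k := by
  have h := (jb_rb hm).1
  have h1 : rb m / (2 * rb m) = 1 / 2 := by
    have : rb m ≠ 0 := by linarith
    field_simp
  rw [vv, h1, eta]

theorem jb_fy (hm : 20 ≤ m) :
    Fld.fy (rb m) (234 / 25 / m) (2 / m ^ 3) (156 / 25 * m) (2 * rb m) = yc m := by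
  have h : m ≠ 0 := by linarith
  rw [Fld.fy, yc]
  have h1 : 234 / 25 / m * (2 * rb m - rb m) ^ 2 / (156 / 25 * m) = 3 / 2 * rb m ^ 2 / m ^ 2 := by
    rw [show 2 * rb m - rb m = rb m by ring]
    field_simp
    ring
  rw [h1]

theorem jb_f (hm : 20 ≤ m) : (1 - eta k) * (2 * m ^ 2 * (rb m - 1) - m ^ 4 * (rb m - 1) ^ 2) =
    1 - eta k := by
  have hm0 : m ≠ 0 := by linarith
  rw [rb]
  field_simp
  ring

theorem jb_f1 (hm : 20 ≤ m) : (1 - eta k) * (2 * m ^ 2 - 2 * m ^ 4 * (rb m - 1)) = 0 := by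
  have hm0 : m ≠ 0 := by linarith
  rw [rb]
  field_simp
  ring

/-- the shear is continuous at the four radii -/
theorem jump_w (hkm : (k : ℝ) = m ^ 4) (hm : 20 ≤ m) {i : ℕ} (hi : i < 4) (h : ℝ) :
    (Zf k m i).w (bb m (i + 1)) h = (Zf k m (i + 1)).w (bb m (i + 1)) h := by
  have hm0 : m ≠ 0 := by linarith
  interval_cases i
  · simp [Zf, bb, Fld.add, Fld.flat, W1, Fld.prod]
  · simp only [Zf, bb, Fld.add, Fld.flat, W1, W2, Fa, Fld.prod, Fld.fan, Fld.fph, jb_vv1 hm,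
      sub_self, mul_zero, zero_mul, add_zero, zero_add]
    rw [jb_f hm]
  · simp only [Zf, bb, Fld.add, Fld.flat, W3, W2, V3, U3, Fa, Fld.prod, Fld.fan, Fld.fph,
      jb_vv2 hm, jb_fy hm, sub_self, mul_zero, zero_mul, add_zero, zero_add]
    have h1 : -(1 / yc m ^ 2) * h ^ 2 = -h ^ 2 / yc m ^ 2 := by ring
    rw [h1]
    ring
  · simp [Zf, bb, Fld.add, Fld.flat, W3, V3, U3, Fld.prod]

theorem jb_exp {x y : ℝ} (h : x ≤ y) : exp x ≤ exp y := exp_le_exp.2 h

theorem jb_ue {u : ℝ} (hu : 0 ≤ u) : u * exp (-u) ≤ exp (-u / 2) := by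
  have h1 := add_one_le_exp (u / 2 - 1)
  have h2 : (2 : ℝ) ≤ exp 1 := by
    have := add_one_le_exp (1 : ℝ)
    linarith
  have h3 : u ≤ exp (u / 2) := by
    have h4 : exp (u / 2) = exp 1 * exp (u / 2 - 1) := by
      rw [← exp_add]
      congr 1
      ring
    rw [h4]
    have h5 : 2 * (u / 2) ≤ exp 1 * exp (u / 2 - 1) :=
      mul_le_mul h2 (by linarith) (by positivity) (by positivity)
    linarith
  have h4 : exp (-u / 2) = exp (u / 2) * exp (-u) := by
    rw [← exp_add]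
    congr 1
    ring
  rw [h4]
  exact mul_le_mul_of_nonneg_right h3 (exp_pos _).le

theorem jb_yc (hm : 20 ≤ m) :
    3 / 2 * rb m ^ 2 / m ^ 2 ≤ yc m ∧ 1 / yc m ≤ 2 / 3 * m ^ 2 := by
  have hm0 : 0 < m := by linarith
  have h1 := (jb_rb hm).1
  have h2 : 3 / 2 * rb m ^ 2 / m ^ 2 ≤ yc m := by
    have : 0 ≤ 2 / m ^ 3 := by positivity
    rw [yc]
    linarith
  refine ⟨h2, ?_⟩
  have h3 : 3 / 2 / m ^ 2 ≤ 3 / 2 * rb m ^ 2 / m ^ 2 := by
    refine div_le_div_of_nonneg_right ?_ (by positivity)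
    nlinarith
  have h4 : 0 < yc m := lt_of_lt_of_le (by positivity) (h3.trans h2)
  rw [div_le_iff₀ h4]
  have h5 : 2 / 3 * m ^ 2 * (3 / 2 / m ^ 2) ≤ 2 / 3 * m ^ 2 * yc m :=
    mul_le_mul_of_nonneg_left (h3.trans h2) (by positivity)
  have h6 : 2 / 3 * m ^ 2 * (3 / 2 / m ^ 2) = 1 := by
    field_simp
  linarith

theorem jb_eta (k : ℕ) : 0 ≤ eta k ∧ eta k ≤ 1 := by
  unfold eta
  exact ⟨by positivity, pow_le_one₀ (by norm_num) (by norm_num)⟩

/-- the radial stress jumps in the right direction at the four radii -/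
theorem jump_P (hkm : (k : ℝ) = m ^ 4) (hm : 20 ≤ m) {i : ℕ} (hi : i < 4) (h : ℝ) :
    (Zf k m i).c (bb m (i + 1)) h / bb m (i + 1) + (Zf k m i).P (bb m (i + 1)) h ≤
      (Zf k m (i + 1)).c (bb m (i + 1)) h / bb m (i + 1) +
        (Zf k m (i + 1)).P (bb m (i + 1)) h := by
  have hm0 : 0 < m := by linarith
  have hmne : m ≠ 0 := hm0.ne'
  obtain ⟨hr1, hr2⟩ := jb_rb hm
  have hr0 : 0 < rb m := by linarith
  obtain ⟨he0, he1⟩ := jb_eta k
  have hm2 : (400 : ℝ) ≤ m ^ 2 := by nlinarith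
  have hm3 : (8000 : ℝ) ≤ m ^ 3 := by nlinarith
  have hm4 : (160000 : ℝ) ≤ m ^ 4 := by nlinarith
  have hK0 : 0 ≤ (k : ℝ) - 1 := by
    rw [hkm]
    linarith
  interval_cases i
  · simp only [Zf, bb, Fld.add, Fld.flat, W1, Fld.prod, sub_self, mul_zero, zero_add, add_zero,
      div_one, one_mul, ne_eq, OfNat.ofNat_ne_zero, not_false_eq_true, zero_pow, sub_zero]
    have h1 : 0 ≤ (1 - eta k) * (2 * m ^ 2) * exp (-(m ^ 6 / 2) * h ^ 2) := by
      have : 0 ≤ 1 - eta k := by linarith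
      positivity
    have h2 : 0 ≤ m ^ 4 / 100 * exp (-(m ^ 6 / 2) * h ^ 2 / 2) := by positivity
    linarith
  · simp only [Zf, bb, Fld.add, Fld.flat, W1, W2, Fa, Fld.prod, Fld.fan, Fld.fph, Fld.fy,
      Fld.fy1, jb_vv1 hm, sub_self, mul_zero, zero_mul, add_zero, zero_add, zero_div, ne_eq,
      OfNat.ofNat_ne_zero, not_false_eq_true, zero_pow]
    have h2 : m ^ 4 / 100 + 21 / 10 * m ^ 6 * (rb m - 1) = 211 / 100 * m ^ 4 := by
      rw [rb]
      field_simp
      ring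
    have h3 : -h ^ 2 / (2 / m ^ 3) ^ 2 = -(m ^ 6 * h ^ 2) / 4 := by
      field_simp
      ring
    have h4 : -(m ^ 6 / 2) * h ^ 2 / 2 = -(m ^ 6 * h ^ 2) / 4 := by ring
    have h5 : -(m ^ 6 / 2) * h ^ 2 = -(m ^ 6 * h ^ 2) / 2 := by ring
    rw [jb_f hm, jb_f1 hm, h2, h3, h4, h5]
    set u := m ^ 6 * h ^ 2 with hu
    have hu0 : 0 ≤ u := by positivity
    have e2 : exp (-u / 2) ≤ exp (-u / 4) := jb_exp (by linarith)
    have p2 := exp_pos (-u / 2)
    have p4 := exp_pos (-u / 4)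
    have hid : (m ^ 3 + (((k : ℝ) - 1) * (1 - eta k) + rb m * 0) *
        exp (-u / 2)) / rb m = m ^ 3 / rb m +
          ((k : ℝ) - 1) * (1 - eta k) * exp (-u / 2) / rb m := by
      field_simp
      ring
    have hid2 : (m ^ 3 + ((((k : ℝ) - 1) * (1 - eta k) + rb m * (-((k : ℝ) - 1) * 1 / rb m)) *
        exp (-u / 2) + rb m * (234 / 25 / m * exp (-u / 4)))) / rb m =
          m ^ 3 / rb m + ((k : ℝ) - 1) * (1 - eta k) * exp (-u / 2) / rb m -
            ((k : ℝ) - 1) * exp (-u / 2) / rb m + 234 / 25 / m * exp (-u / 4) := by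
      field_simp
      ring
    have hid3 : 156 / 25 * m * (1 / (2 / m ^ 3) + 7 / m) * exp (-u / 4) =
        (78 / 25 * m ^ 4 + 1092 / 25) * exp (-u / 4) := by
      field_simp
      ring
    rw [hid, hid2, hid3]
    have b1 : ((k : ℝ) - 1) * exp (-u / 2) / rb m ≤ m ^ 4 * exp (-u / 4) := by
      rw [div_le_iff₀ hr0]
      have c1 : ((k : ℝ) - 1) * exp (-u / 2) ≤ m ^ 4 * exp (-u / 4) :=
        mul_le_mul (by linarith) e2 p2.le (by positivity)
      have c2 : m ^ 4 * exp (-u / 4) * 1 ≤ m ^ 4 * exp (-u / 4) * rb m :=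
        mul_le_mul_of_nonneg_left hr1 (by positivity)
      linarith
    have b5 : 0 ≤ 234 / 25 / m * exp (-u / 4) := by positivity
    have b6 : 0 ≤ 6 / 5 * m ^ 3 * (2 - 1) * exp (-u / 4) := by
      have : 6 / 5 * m ^ 3 * (2 - 1) * exp (-u / 4) = 6 / 5 * m ^ 3 * exp (-u / 4) := by ring
      rw [this]
      positivity
    have b7 : 0 ≤ m ^ 4 * exp (-u / 4) := by positivity
    linarith
  · simp only [Zf, bb, Fld.add, Fld.flat, W3, W2, V3, U3, Fa, Fld.prod, Fld.fan, Fld.fph,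
      jb_vv2 hm, jb_fy hm, sub_self, mul_zero, zero_mul, add_zero, zero_add]
    obtain ⟨hy1, hy2⟩ := jb_yc hm
    set y := yc m with hy
    have hy0 : 0 < y := lt_of_lt_of_le (by positivity) hy1
    have hf : Fld.fy1 (rb m) (234 / 25 / m) (156 / 25 * m) (2 * rb m) = 3 * rb m / m ^ 2 := by
      rw [Fld.fy1]
      field_simp
      ring
    have h1 : -(1 / y ^ 2) * h ^ 2 = -(h ^ 2 / y ^ 2) := by ring
    have h2 : -(2 / y ^ 2) * h ^ 2 / 2 = -(h ^ 2 / y ^ 2) := by ring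
    have h3 : -h ^ 2 / y ^ 2 = -(h ^ 2 / y ^ 2) := by ring
    rw [hf, h1, h2, h3, show 2 * rb m - rb m = rb m by ring,
      show 201 / 100 * rb m - 2 * rb m = rb m / 100 by ring]
    set v := h ^ 2 / y ^ 2 with hv
    have hv0 : 0 ≤ v := by positivity
    set T := 2 * v * (234 / 25 / m * rb m) * (3 * rb m / m ^ 2) / y with hT
    have hTv : T ≤ 40 / m * v := by
      have c1 : T = 936 / 25 / m * v * (3 / 2 * rb m ^ 2 / m ^ 2 / y) := by
        rw [hT]
        field_simp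
        ring
      rw [c1]
      have c2 : 3 / 2 * rb m ^ 2 / m ^ 2 / y ≤ 1 := by
        rw [div_le_one hy0]
        exact hy1
      have c3 : 936 / 25 / m * v * (3 / 2 * rb m ^ 2 / m ^ 2 / y) ≤ 936 / 25 / m * v :=
        mul_le_of_le_one_right (by positivity) c2
      have c4 : 936 / 25 / m * v ≤ 40 / m * v := by
        refine mul_le_mul_of_nonneg_right ?_ hv0
        exact div_le_div_of_nonneg_right (by norm_num) hm0.le
      exact c3.trans c4
    set E := exp (-(m ^ 6 / 2) * h ^ 2) with hE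
    have hid : (m ^ 3 + (2 * rb m * (-((k : ℝ) - 1) * eta k / (2 * rb m)) * E +
        (((k : ℝ) - 1) * (234 / 25 / m * rb m) * exp (-v) +
          2 * rb m * ((234 / 25 / m + T) * exp (-v))))) /
          (2 * rb m) = m ^ 3 / (2 * rb m) - ((k : ℝ) - 1) * eta k * E / (2 * rb m) +
            ((k : ℝ) - 1) * (234 / 25 / m) * exp (-v) / 2 + (234 / 25 / m + T) * exp (-v) := by
      field_simp
      ring
    have hid2 : (m ^ 3 + (((k : ℝ) - 1) * (936 / m * (rb m / 100)) + 2 * rb m * -(936 / m)) *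
        exp (-v)) / (2 * rb m) = m ^ 3 / (2 * rb m) +
          ((k : ℝ) - 1) * (234 / 25 / m) * exp (-v) / 2 - 936 / m * exp (-v) := by
      field_simp
      ring
    rw [hid, hid2]
    have p1 := exp_pos (-v)
    have p2 := exp_pos (-v / 2)
    have b1 : 0 ≤ ((k : ℝ) - 1) * eta k * E / (2 * rb m) := by positivity
    have b2 : v * exp (-v) ≤ exp (-v / 2) := jb_ue hv0
    have b3 : T * exp (-v) ≤ 40 / m * v * exp (-v) := mul_le_mul_of_nonneg_right hTv p1.le
    have b4 : 40 / m * v * exp (-v) ≤ 40 / m * exp (-v / 2) := by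
      rw [mul_assoc]
      exact mul_le_mul_of_nonneg_left b2 (by positivity)
    have b5 : 40 / m * exp (-v / 2) ≤ 2 * exp (-v / 2) := by
      refine mul_le_mul_of_nonneg_right ?_ p2.le
      rw [div_le_iff₀ hm0]
      linarith
    have b6 : 234 / 25 / m * exp (-v) ≤ 1 * exp (-v / 2) := by
      refine mul_le_mul ?_ (jb_exp (by linarith)) p1.le (by norm_num)
      rw [div_le_iff₀ hm0]
      linarith
    have b6' : 936 / m * exp (-v) ≤ 50 * exp (-v / 2) := by
      refine mul_le_mul ?_ (jb_exp (by linarith)) p1.le (by norm_num)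
      rw [div_le_iff₀ hm0]
      linarith
    have b7 : 4000 * exp (-v / 2) ≤ m ^ 3 / 2 * exp (-v / 2) :=
      mul_le_mul_of_nonneg_right (by linarith) p2.le
    have b8 : (234 / 25 / m + T) * exp (-v) = 234 / 25 / m * exp (-v) + T * exp (-v) := by ring
    rw [b8]
    linarith
  · simp only [Zf, bb, Fld.add, Fld.flat, W3, V3, U3, Fld.prod,
      sub_self, mul_zero, zero_mul, add_zero, zero_add]
    obtain ⟨hy1, hy2⟩ := jb_yc hm
    set y := yc m with hy
    have hy0 : 0 < y := lt_of_lt_of_le (by positivity) hy1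
    rw [show 201 / 100 * rb m - 2 * rb m = rb m / 100 by ring]
    set G := exp (-(1 / y ^ 2) * h ^ 2) with hG
    have q1 : exp (-(1 / y ^ 2) * h ^ 2 / 2) ≤ 1 := by
      refine exp_le_one_iff.2 ?_
      have : 0 ≤ 1 / y ^ 2 * h ^ 2 := by positivity
      linarith
    have q2 : exp (-(2 / y ^ 2) * h ^ 2 / 2) ≤ 1 := by
      refine exp_le_one_iff.2 ?_
      have : 0 ≤ 2 / y ^ 2 * h ^ 2 := by positivity
      linarith
    have q3 : exp (-(m ^ 6 / 2) * h ^ 2 / 2) ≤ 1 := by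
      refine exp_le_one_iff.2 ?_
      have : 0 ≤ m ^ 6 / 2 * h ^ 2 := by positivity
      linarith
    have hG0 : 0 < G := exp_pos _
    have hid : (m ^ 3 + 201 / 100 * rb m * -(936 / m) * G) / (201 / 100 * rb m) =
        m ^ 3 / (201 / 100 * rb m) - 936 / m * G := by
      field_simp
      ring
    rw [hid]
    have b0 : 0 ≤ 936 / m * G := by positivity
    have b1 : (m ^ 3 / 2 + 559 * m ^ 3 * (rb m / 100)) * exp (-(1 / y ^ 2) * h ^ 2 / 2) ≤
        (m ^ 3 / 2 + 559 * m ^ 3 * (rb m / 100)) * 1 :=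
      mul_le_mul_of_nonneg_left q1 (by positivity)
    have b2 : 156 / 25 * m * (1 / y + 7 / m) * exp (-(2 / y ^ 2) * h ^ 2 / 2) ≤
        156 / 25 * m * (1 / y + 7 / m) * 1 := mul_le_mul_of_nonneg_left q2 (by positivity)
    have b3 : 156 / 25 * m * (1 / y + 7 / m) ≤ 104 / 25 * m ^ 3 + 1092 / 25 := by
      have c1 : 156 / 25 * m * (1 / y + 7 / m) = 156 / 25 * m * (1 / y) + 1092 / 25 := by
        field_simp
        ring
      rw [c1]
      have c2 : 156 / 25 * m * (1 / y) ≤ 156 / 25 * m * (2 / 3 * m ^ 2) :=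
        mul_le_mul_of_nonneg_left hy2 (by positivity)
      have c3 : 156 / 25 * m * (2 / 3 * m ^ 2) = 104 / 25 * m ^ 3 := by ring
      linarith
    have b4 : 6 / 5 * m ^ 3 * (2 - eta k) * exp (-(m ^ 6 / 2) * h ^ 2 / 2) ≤ 12 / 5 * m ^ 3 := by
      have c1 : 6 / 5 * m ^ 3 * (2 - eta k) * exp (-(m ^ 6 / 2) * h ^ 2 / 2) ≤
          6 / 5 * m ^ 3 * 2 * 1 :=
        mul_le_mul (mul_le_mul_of_nonneg_left (by linarith) (by positivity)) q3 (exp_pos _).le
          (by positivity)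
      linarith
    have b5 : m ^ 3 / (201 / 100 * rb m) + (m ^ 3 / 2 + 559 * m ^ 3 * (rb m / 100) +
        (104 / 25 * m ^ 3 + 1092 / 25) + 12 / 5 * m ^ 3) ≤ 27 * m ^ 3 / (201 / 100 * rb m) := by
      have c1 : 27 * m ^ 3 / (201 / 100 * rb m) - m ^ 3 / (201 / 100 * rb m) =
          26 * m ^ 3 / (201 / 100 * rb m) := by
        field_simp
        ring
      have c2 : 353 / 50 * m ^ 3 + 559 / 100 * m ^ 3 * rb m + 1092 / 25 ≤
          26 * m ^ 3 / (201 / 100 * rb m) := by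
        rw [le_div_iff₀ (by positivity)]
        have c3 : rb m ^ 2 ≤ 1.00500625 := by nlinarith
        have c4 : m ^ 3 * rb m ≤ m ^ 3 * 1.0025 := mul_le_mul_of_nonneg_left hr2 (by positivity)
        have c5 : m ^ 3 * rb m ^ 2 ≤ m ^ 3 * 1.00500625 :=
          mul_le_mul_of_nonneg_left c3 (by positivity)
        have c6 : (353 / 50 * m ^ 3 + 559 / 100 * m ^ 3 * rb m + 1092 / 25) *
          (201 / 100 * rb m) = 353 / 50 * (201 / 100) * (m ^ 3 * rb m) +
            559 / 100 * (201 / 100) * (m ^ 3 * rb m ^ 2) + 1092 / 25 * (201 / 100) * rb m := by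
          ring
        rw [c6]
        linarith
      linarith
    linarith

end Pool.Agent.Helper19.LB2
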